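import Mathlib
import Pool.Agent.Y423.DG.Top

set_option autoImplicit false

/-!
# MP_af1bb3_co: the asymptotic value of the largest gap between the connected domination number
and the domination number, uniformly in the ratio of the order and the minimum degree

`M n k` is the maximum of `γ_c(G) - γ(G)` over the connected graphs `G` on `n` vertices with
minimum degree at least `k`. For every fixed positive `δ`, uniformly in all `n ≥ (1 + δ) (k + 1)`,

`M n k = (1 + o(1)) ln ln k / ln (n / (n - k - 1))` as `k → ∞`;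

in particular `M n k = (1 + o(1)) (n / (k + 1)) ln ln k` as `k → ∞` and `n / k → ∞`.
-/

namespace Pool.Agent.Results.MP_af1bb3_co.SharpAsymptotics

/-- `S` is a dominating set of `G`. -/
def IsDominating {V : Type} (G : SimpleGraph V) (S : Finset V) : Prop :=
  ∀ v : V, v ∈ S ∨ ∃ u ∈ S, G.Adj v u

/-- The domination number. -/
noncomputable def domNumber {V : Type} (G : SimpleGraph V) : ℕ :=
  sInf {m : ℕ | ∃ S : Finset V, IsDominating G S ∧ S.card = m}

/-- The connected domination number: least size of a dominating set inducing a connected graph. -/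
noncomputable def connDomNumber {V : Type} (G : SimpleGraph V) : ℕ :=
  sInf {m : ℕ | ∃ S : Finset V, IsDominating G S ∧ (G.induce (S : Set V)).Connected ∧ S.card = m}

/-- `M n k`: maximum of `γ_c(G) - γ(G)` over connected graphs `G` on `n` vertices with minimum
degree at least `k`. -/
noncomputable def M (n k : ℕ) : ℕ :=
  sSup {m : ℕ | ∃ (V : Type) (_ : Fintype V) (G : SimpleGraph V), Fintype.card V = n ∧
    G.Connected ∧ (∀ v : V, k ≤ (G.neighborSet v).ncard) ∧ m = connDomNumber G - domNumber G}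

lemma M_eq (n k : ℕ) : M n k = Pool.Agent.Y423.DG.gap n k := rfl

/-- The asymptotic value of `M n k`, uniformly for `n ≥ (1 + δ) (k + 1)`, and its simpler form
for `n / k → ∞`. -/
theorem result :
    (∀ δ : ℝ, 0 < δ → ∀ ε : ℝ, 0 < ε → ∃ k₀ : ℕ, ∀ k : ℕ, k₀ ≤ k → ∀ n : ℕ,
      (1 + δ) * ((k : ℝ) + 1) ≤ n →
        (1 - ε) * (Real.log (Real.log k) / Real.log ((n : ℝ) / (n - k - 1))) ≤ (M n k : ℝ) ∧
        (M n k : ℝ) ≤ (1 + ε) * (Real.log (Real.log k) / Real.log ((n : ℝ) / (n - k - 1)))) ∧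
    (∀ ε : ℝ, 0 < ε → ∃ (k₀ : ℕ) (x₀ : ℝ), ∀ k : ℕ, k₀ ≤ k → ∀ n : ℕ,
      x₀ * ((k : ℝ) + 1) ≤ n →
        (1 - ε) * ((n : ℝ) / (k + 1) * Real.log (Real.log k)) ≤ (M n k : ℝ) ∧
        (M n k : ℝ) ≤ (1 + ε) * ((n : ℝ) / (k + 1) * Real.log (Real.log k))) := by
  simp only [M_eq]
  exact ⟨Pool.Agent.Y423.DG.main, Pool.Agent.Y423.DG.sparse⟩

end Pool.Agent.Results.MP_af1bb3_co.SharpAsymptotics
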